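import Pool.Agent.H50.PL.Crit

/-!
# Canonical pseudo-loop conditions modulo Ramsey groups
-/

set_option autoImplicit false

namespace Pool.Agent.H50.PL

open Pool.Agent.H68.BP Pool.Agent.H58.SF Pool.Agent.H58.HN

variable {σ : Sig} {A : Type} {𝔸 : Str σ A} {G : Subgroup (Equiv.Perm A)}

theorem tupleRamsey_fin (hR : TupleRamsey G) {K C : Type} [Finite K] [Finite C]
    (F : Finset (K → A)) (χ : (K → A) → C) : ∃ g ∈ G, ∀ x ∈ F, ∀ y ∈ F,
      (∃ γ ∈ G, ∀ i, γ (x i) = y i) → χ (fun i => g (x i)) = χ (fun i => g (y i)) := by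
  classical
  obtain ⟨n, ⟨e⟩⟩ := Finite.exists_equiv_fin K
  obtain ⟨k, ⟨c⟩⟩ := Finite.exists_equiv_fin C
  obtain ⟨g, hg, h⟩ := hR n k (F.image fun x i => x (e.symm i))
    (fun x => c (χ fun i => x (e i)))
  refine ⟨g, hg, fun x hx y hy hxy => ?_⟩
  obtain ⟨γ, hγ, hxy⟩ := hxy
  have h1 := h _ (Finset.mem_image_of_mem _ hx) _ (Finset.mem_image_of_mem _ hy)
    ⟨γ, hγ, fun i => hxy (e.symm i)⟩
  have h2 := c.injective h1
  simp only [Equiv.symm_apply_apply] at h2
  exact h2

/-- a function is canonical on a finite set after composition with an element of the group -/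
theorem canon_fin (hO : OligoGroup G) (hR : TupleRamsey G) {I : Type} [Finite I]
    (s : (I → A) → A) (F : Finset A) : ∃ g ∈ G, ∀ (n : ℕ) (x : Fin n → I → A) (γ : Equiv.Perm A),
      γ ∈ G → (∀ j i, x j i ∈ F) → (∀ j i, γ (x j i) ∈ F) →
      ∃ h ∈ G, ∀ j, s (fun i => g (γ (x j i))) = h (s fun i => g (x j i)) := by
  classical
  have := Fintype.ofFinite I
  let U : Type := I → F
  have hfin := orb_finite hO U
  let χ : (U × I → A) → Quotient (orbSetoid G U) := fun x =>
    Quotient.mk _ fun u => s fun i => x (u, i)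
  let F' : Finset (U × I → A) := Fintype.piFinset fun _ => F
  obtain ⟨g, hg, h⟩ := tupleRamsey_fin hR F' χ
  refine ⟨g, hg, fun n x γ hγ hx hx' => ?_⟩
  -- the tuple with all arguments which occur, the others replaced by one of them
  let X : U × I → A := fun q => if ∃ j, ∀ i, (q.1 i : A) = x j i then (q.1 q.2 : A) else
    if hn : 0 < n then x ⟨0, hn⟩ q.2 else (q.1 q.2 : A)
  rcases Nat.eq_zero_or_pos n with rfl | hn
  · exact ⟨1, one_mem G, fun j => j.elim0⟩
  have hX : ∀ q, ∃ j, ∀ i, X (q, i) = x j i := by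
    intro q
    by_cases hq : ∃ j, ∀ i, (q i : A) = x j i
    · obtain ⟨j, hj⟩ := hq
      refine ⟨j, fun i => ?_⟩
      change (if ∃ j, ∀ i, (q i : A) = x j i then (q i : A) else _) = _
      rw [if_pos ⟨j, hj⟩]
      exact hj i
    · refine ⟨⟨0, hn⟩, fun i => ?_⟩
      change (if ∃ j, ∀ i, (q i : A) = x j i then (q i : A) else
        if hn : 0 < n then x ⟨0, hn⟩ i else (q i : A)) = _
      rw [if_neg hq, dif_pos hn]
  have h1 := h X (by
      refine Fintype.mem_piFinset.2 fun q => ?_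
      obtain ⟨j, hj⟩ := hX q.1
      rw [hj]
      exact hx j q.2) (fun q => γ (X q)) (by
      refine Fintype.mem_piFinset.2 fun q => ?_
      obtain ⟨j, hj⟩ := hX q.1
      rw [hj]
      exact hx' j q.2) ⟨γ, hγ, fun _ => rfl⟩
  obtain ⟨k, hk, h2⟩ := Quotient.exact h1
  refine ⟨k, hk, fun j => ?_⟩
  let q : U := fun i => ⟨x j i, hx j i⟩
  have h3 : (k (s fun i => g (X (q, i)))) = s fun i => g (γ (X (q, i))) := h2 q
  have h4 : ∀ i, X (q, i) = x j i := by
    intro i
    change (if ∃ j, ∀ i, (q i : A) = x j i then (q i : A) else _) = _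
    rw [if_pos ⟨j, fun i => rfl⟩]
  simp only [h4] at h3
  exact h3.symm

theorem canon_loop (hA : Countable A) (hG : ∀ g ∈ G, IsAut 𝔸 g)
    (hO : OligoGroup G) (hR : TupleRamsey G) {W : Type} [Finite W]
    (S : W → W → Prop) (h : PseudoLoopMod 𝔸 G S) (a₀ : Arcs S) : CanonicalLoopMod 𝔸 G S := by
  classical
  rcases isEmpty_or_nonempty A with hE | hN
  · refine ⟨fun x => x a₀, id, id, ?_, ?_, ?_, ?_, fun x => hE.elim (x a₀.1.1)⟩
    · intro l x hx
      exact hx a₀
    · intro n x γ hγ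
      exact ⟨γ, hγ, fun j => rfl⟩
    all_goals
      intro X
      exact ⟨1, one_mem G, fun x _ => rfl⟩
  obtain ⟨F, hF1, hF2⟩ := exists_exhaustion A
  obtain ⟨s₀, α₀, β₀, h1, h2, h3, h4⟩ := h
  have := Fintype.ofFinite W
  have := Fintype.ofFinite (Arcs S)
  -- the identity modulo the group on finite sets
  have hloc₀ : ∀ Y : Finset A, ∃ k ∈ G, ∀ x : W → A, (∀ w, x w ∈ Y) →
      s₀ (fun p => x p.1.1) = k (s₀ (fun p => x p.1.2)) := by
    intro Y
    let Z : Finset (W → A) := Fintype.piFinset fun _ => Y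
    obtain ⟨g, hg, hg'⟩ := h2 (Z.image fun x => s₀ fun p => x p.1.1)
    obtain ⟨k, hk, hk'⟩ := h3 (Z.image fun x => s₀ fun p => x p.1.2)
    refine ⟨g⁻¹ * k, mul_mem (inv_mem hg) hk, fun x hx => ?_⟩
    have hxZ : x ∈ Z := Fintype.mem_piFinset.2 hx
    have h5 := h4 x
    rw [hg' _ (Finset.mem_image_of_mem (fun (x : W → A) => s₀ fun p => x p.1.1) hxZ),
      hk' _ (Finset.mem_image_of_mem (fun (x : W → A) => s₀ fun p => x p.1.2) hxZ)] at h5
    change _ = g⁻¹ (k (s₀ fun p => x p.1.2))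
    rw [← h5, inv_app]
  have hcan := fun m => canon_fin hO hR s₀ (F m)
  choose g hg hgc using hcan
  obtain ⟨s, hs⟩ := limG hO (Arcs S → A) (fun m x => s₀ fun p => g m (x p))
  have hpoly : IsPoly 𝔸 𝔸 s := by
    intro l x hx
    obtain ⟨m, -, γ, hγ, hom⟩ := hs (Finset.univ.image (fun k i => x i k)) 0
    have h5 := h1 l (fun i k => g m (x i k)) (fun i => (hG _ (hg m) l _).1 (hx i))
    have h6 := (hG γ hγ l _).1 h5
    have e : (fun k => γ (s₀ (fun i => g m (x i k)))) = fun k => s (fun i => x i k) := by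
      funext k
      exact (hom _ (Finset.mem_image_of_mem (fun k i => x i k) (Finset.mem_univ k))).symm
    rw [e] at h6
    exact h6
  have hC : Canonical G s := by
    intro n x γ hγ
    let Y : Finset A := Finset.univ.image (fun q : Fin n × Arcs S => x q.1 q.2) ∪
      Finset.univ.image (fun q : Fin n × Arcs S => γ (x q.1 q.2))
    obtain ⟨r, hr⟩ := hF2 Y
    let X : Finset (Arcs S → A) := Finset.univ.image x ∪
      Finset.univ.image (fun j i => γ (x j i))
    obtain ⟨m, hm, δ, hδ, hom⟩ := hs X r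
    obtain ⟨h, hh, h5⟩ := hgc m n x γ hγ
      (fun j i => hr m hm (Finset.mem_union_left _
        (Finset.mem_image_of_mem (fun q : Fin n × Arcs S => x q.1 q.2) (Finset.mem_univ (j, i)))))
      (fun j i => hr m hm (Finset.mem_union_right _
        (Finset.mem_image_of_mem (fun q : Fin n × Arcs S => γ (x q.1 q.2))
          (Finset.mem_univ (j, i)))))
    refine ⟨δ * (h * δ⁻¹), mul_mem hδ (mul_mem hh (inv_mem hδ)), fun j => ?_⟩
    rw [hom _ (Finset.mem_union_right _ (Finset.mem_image_of_mem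
        (fun (j : Fin n) (i : Arcs S) => γ (x j i)) (Finset.mem_univ j))),
      hom _ (Finset.mem_union_left _ (Finset.mem_image_of_mem x (Finset.mem_univ j))), h5 j]
    change _ = δ (h (δ⁻¹ (δ (s₀ fun p => g m (x j p)))))
    rw [inv_app]
  have hloc : ∀ Y : Finset A, ∃ k ∈ G, ∀ x : W → A, (∀ w, x w ∈ Y) →
      s (fun p => x p.1.1) = k (s (fun p => x p.1.2)) := by
    intro Y
    let Z : Finset (W → A) := Fintype.piFinset fun _ => Y
    let X : Finset (Arcs S → A) :=
      Z.image (fun (x : W → A) (p : Arcs S) => x p.1.1) ∪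
        Z.image (fun (x : W → A) (p : Arcs S) => x p.1.2)
    obtain ⟨m, -, γ, hγ, hom⟩ := hs X 0
    obtain ⟨k, hk, hk'⟩ := hloc₀ (Y.image (g m))
    refine ⟨γ * (k * γ⁻¹), mul_mem hγ (mul_mem hk (inv_mem hγ)), fun x hx => ?_⟩
    have hxZ : x ∈ Z := Fintype.mem_piFinset.2 hx
    rw [hom _ (Finset.mem_union_left _ (Finset.mem_image_of_mem
        (fun (x : W → A) (p : Arcs S) => x p.1.1) hxZ)),
      hom _ (Finset.mem_union_right _ (Finset.mem_image_of_mem
        (fun (x : W → A) (p : Arcs S) => x p.1.2) hxZ)),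
      hk' (fun w => g m (x w)) fun w => Finset.mem_image_of_mem _ (hx w)]
    change _ = γ (k (γ⁻¹ (γ (s₀ (fun p => g m (x p.1.2))))))
    rw [inv_app]
  -- the unary maps
  have hloc' := fun m => hloc (F m)
  choose k hk hko using hloc'
  obtain ⟨H, hH⟩ := limG hO (Bool × A) (fun m q => if q.1 then k m q.2 else q.2)
  have key0 : LocallyIn G (fun a => H (false, a)) := by
    intro X
    obtain ⟨m, -, γ, hγ, h2⟩ := hH (X.image (fun a => (false, a))) 0
    exact ⟨γ, hγ, fun x hx => h2 (false, x) (Finset.mem_image_of_mem _ hx)⟩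
  have key1 : LocallyIn G (fun a => H (true, a)) := by
    intro X
    obtain ⟨m, -, γ, hγ, h2⟩ := hH (X.image (fun a => (true, a))) 0
    exact ⟨γ * k m, mul_mem hγ (hk m), fun x hx =>
      h2 (true, x) (Finset.mem_image_of_mem _ hx)⟩
  refine ⟨s, fun a => H (false, a), fun a => H (true, a), hpoly, hC, key0, key1, fun x => ?_⟩
  obtain ⟨n, hn⟩ := hF2 (Finset.univ.image x)
  obtain ⟨m, hm, γ, hγ, h2⟩ := hH {(false, s (fun p => x p.1.1)), (true, s (fun p => x p.1.2))} n
  have h3 := h2 (false, s (fun p => x p.1.1)) (by simp)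
  have h4 := h2 (true, s (fun p => x p.1.2)) (by simp)
  have h5 := hko m x (fun w => hn m hm (Finset.mem_image_of_mem x (Finset.mem_univ w)))
  change H (false, s (fun p => x p.1.1)) = H (true, s (fun p => x p.1.2))
  rw [h3, h4]
  change γ (s (fun p => x p.1.1)) = γ (k m (s (fun p => x p.1.2)))
  rw [← h5]

/-- the pseudo-Siggers identity is the condition of the triangle -/
theorem canonSiggers_of_loop (h : CanonicalLoopMod 𝔸 G fun a b : Fin 3 => a ≠ b) :
    CanonicalSiggersMod 𝔸 G := by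
  obtain ⟨s, α, β, h1, hc, h2, h3, h4⟩ := h
  -- numbering of the arcs
  let c : Arcs (fun a b : Fin 3 => a ≠ b) → Fin 6 := fun p =>
    ![![0, 0, 3], ![4, 0, 1], ![2, 5, 0]] p.1.1 p.1.2
  refine ⟨fun x => s fun p => x (c p), α, β, ?_, ?_, h2, h3, fun x y z => ?_⟩
  · intro l x hx
    exact h1 l (fun p => x (c p)) fun p => hx (c p)
  · intro n x γ hγ
    exact hc n (fun j p => x j (c p)) γ hγ
  · have h5 := h4 ![x, y, z]
    have e1 : (fun p : Arcs (fun a b : Fin 3 => a ≠ b) => ![x, y, z] p.1.1) =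
        fun p => ![x, y, z, x, y, z] (c p) := by
      funext p
      obtain ⟨⟨a, b⟩, hab⟩ := p
      fin_cases a <;> fin_cases b <;> first | rfl | exact absurd rfl hab
    have e2 : (fun p : Arcs (fun a b : Fin 3 => a ≠ b) => ![x, y, z] p.1.2) =
        fun p => ![y, z, x, z, x, y] (c p) := by
      funext p
      obtain ⟨⟨a, b⟩, hab⟩ := p
      fin_cases a <;> fin_cases b <;> first | rfl | exact absurd rfl hab
    rw [e1, e2] at h5
    exact h5

end Pool.Agent.H50.PL
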