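import Pool.Agent.H50.PL.Canon

/-!
# Ramsey groups: pseudo-loop conditions and pseudo-Olšák polymorphisms exclude the triangle
-/

set_option autoImplicit false

namespace Pool.Agent.H50.PL

open Pool.Agent.H68.BP Pool.Agent.H58.SF Pool.Agent.H58.HN

variable {σ : Sig} {A : Type} {𝔸 : Str σ A} {G : Subgroup (Equiv.Perm A)}

/-- polymorphisms preserve sets which are primitive positive definable -/
theorem pp_poly {I J : Type} {S : Set (I → A)} (hS : PPDefinable 𝔸 S) {f : (J → A) → A}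
    (hf : IsPoly 𝔸 𝔸 f) (z : J → I → A) (hz : ∀ j, z j ∈ S) :
    (fun i => f (fun j => z j i)) ∈ S := by
  obtain ⟨q, φ, h⟩ := hS
  have h1 := fun j => (h (z j)).1 (hz j)
  choose y hy using h1
  rw [h]
  refine ⟨fun k => f (fun j => y j k), fun a ha => ?_⟩
  have e : (Sum.elim (fun i => f (fun j => z j i)) fun k => f (fun j => y j k)) =
      fun v => f (fun j => Sum.elim (z j) (y j) v) := by
    funext v
    rcases v with v | v <;> rfl
  rw [e]
  cases a with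
  | eq u v =>
    change f (fun j => Sum.elim (z j) (y j) u) = f (fun j => Sum.elim (z j) (y j) v)
    exact congrArg f (funext fun j => hy j _ ha)
  | rel l t => exact hf l (fun j k => Sum.elim (z j) (y j) (t k)) fun j => hy j _ ha

/-- A pseudo-loop condition of a `3`-colourable graph modulo a Ramsey group excludes `K₃`. -/
theorem not_K3_of_loop (hG : ∀ g ∈ G, IsAut 𝔸 g) (hR : TupleRamsey G) {W : Type}
    {S : W → W → Prop} (hS : Colorable S 3) (h : PseudoLoopMod 𝔸 G S) : ¬ PPConstructsK3 𝔸 := by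
  classical
  rintro ⟨n, E, hn, hE, ⟨t, ht⟩, ⟨c, hc⟩⟩
  obtain ⟨s, α, β, h1, h2, h3, h4⟩ := h
  obtain ⟨d, hd⟩ := hS
  let u : Fin n → A := fun i => s fun p => t (d p.1.1) i
  let v : Fin n → A := fun i => s fun p => t (d p.1.2) i
  have huv : E u v := by
    have h5 := pp_poly hE h1 (fun p : Arcs S => Sum.elim (t (d p.1.1)) (t (d p.1.2)))
      (fun p => ht _ _ (hd _ _ p.2))
    exact h5
  obtain ⟨g, hg, hgu⟩ := h2 (Finset.univ.image u)
  obtain ⟨k, hk, hkv⟩ := h3 (Finset.univ.image v)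
  have h5 : ∀ i, g (u i) = k (v i) := by
    intro i
    rw [← hgu _ (Finset.mem_image_of_mem u (Finset.mem_univ i)),
      ← hkv _ (Finset.mem_image_of_mem v (Finset.mem_univ i))]
    exact h4 fun w => t (d w) i
  obtain ⟨δ, hδ, h6⟩ := hR n 3 {u, v} c
  have h7 := h6 u (by simp) v (by simp) ⟨k⁻¹ * g, mul_mem (inv_mem hk) hg, fun i => by
    change k⁻¹ (g (u i)) = v i
    rw [h5, inv_app]⟩
  have h8 := (Pool.Agent.H81.SF.pp_aut (hG δ hδ) hE (Sum.elim u v)).1 huv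
  exact hc _ _ h8 h7

theorem loop_of_siggers (h : PseudoSiggersMod 𝔸 G) :
    PseudoLoopMod 𝔸 G fun a b : Fin 3 => a ≠ b := by
  obtain ⟨s, α, β, h1, h2, h3, h4⟩ := h
  let e : Fin 6 → Arcs fun a b : Fin 3 => a ≠ b :=
    ![⟨(0, 1), by decide⟩, ⟨(1, 2), by decide⟩, ⟨(2, 0), by decide⟩, ⟨(0, 2), by decide⟩,
      ⟨(1, 0), by decide⟩, ⟨(2, 1), by decide⟩]
  refine ⟨fun x => s fun i => x (e i), α, β, ?_, h2, h3, fun x => ?_⟩
  · intro l x hx
    exact h1 l (fun i => x (e i)) fun i => hx (e i)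
  · have h5 := h4 (x 0) (x 1) (x 2)
    have e1 : (fun i => x (e i).1.1) = ![x 0, x 1, x 2, x 0, x 1, x 2] := by
      funext i
      fin_cases i <;> rfl
    have e2 : (fun i => x (e i).1.2) = ![x 1, x 2, x 0, x 2, x 0, x 1] := by
      funext i
      fin_cases i <;> rfl
    rw [← e1, ← e2] at h5
    exact h5

/-- Pseudo-Olšák polymorphisms modulo a Ramsey group exclude `K₃`. -/
theorem not_K3_of_olsak (hG : ∀ g ∈ G, IsAut 𝔸 g) (hR : TupleRamsey G)
    (h : PseudoOlsakMod 𝔸 G) : ¬ PPConstructsK3 𝔸 := by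
  classical
  rintro ⟨n, E, hn, hE, ⟨t, ht⟩, ⟨c, hc⟩⟩
  obtain ⟨o, α, β, γ, h1, h2, h3, h4, h5⟩ := h
  -- the witnesses for the three positions: a triangle next to each triple
  let w : Fin 3 → Fin 6 → Fin 3 := ![![1, 1, 0, 0, 0, 1], ![2, 0, 1, 2, 1, 0], ![0, 2, 2, 1, 2, 2]]
  let U : Fin 3 → Fin n → A := fun k i => o fun j => t (pat k (0 : Fin 3) 1 j) i
  let Z : Fin 3 → Fin n → A := fun k i => o fun j => t (w k j) i
  have hw : ∀ (k : Fin 3) (j : Fin 6), w k j ≠ pat k (0 : Fin 3) 1 j := by decide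
  have hw' : ∀ (k k' : Fin 3) (j : Fin 6), k ≠ k' → w k j ≠ w k' j := by decide
  have hZU : ∀ k, E (Z k) (U k) := fun k =>
    pp_poly hE h1 (fun j => Sum.elim (t (w k j)) (t (pat k (0 : Fin 3) 1 j)))
      (fun j => ht _ _ (hw k j))
  have hZZ : ∀ k k', k ≠ k' → E (Z k) (Z k') := fun k k' hk =>
    pp_poly hE h1 (fun j => Sum.elim (t (w k j)) (t (w k' j)))
      (fun j => ht _ _ (hw' k k' j hk))
  -- the three values are in one orbit
  have hU : ∀ k i, U k i = o (pat k (t 0 i) (t 1 i)) := by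
    intro k i
    exact congrArg o (funext fun j => pat_map (fun a => t a i) k 0 1 j)
  have horb : ∀ k, ∃ g ∈ G, ∀ i, g (U 0 i) = U k i := by
    obtain ⟨g, hg, hg'⟩ := h2 (Finset.univ.image (U 0))
    have h6 : ∀ i, α (U 0 i) = g (U 0 i) := fun i =>
      hg' _ (Finset.mem_image_of_mem _ (Finset.mem_univ i))
    have h7 : ∀ i, α (U 0 i) = β (U 1 i) := by
      intro i
      rw [hU, hU]
      exact (h5 (t 0 i) (t 1 i)).1
    have h8 : ∀ i, β (U 1 i) = γ (U 2 i) := by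
      intro i
      rw [hU, hU]
      exact (h5 (t 0 i) (t 1 i)).2
    intro k
    fin_cases k
    · exact ⟨1, one_mem G, fun i => rfl⟩
    · obtain ⟨k, hk, hk'⟩ := h3 (Finset.univ.image (U 1))
      refine ⟨k⁻¹ * g, mul_mem (inv_mem hk) hg, fun i => ?_⟩
      change k⁻¹ (g (U 0 i)) = U 1 i
      rw [← h6, h7, hk' _ (Finset.mem_image_of_mem _ (Finset.mem_univ i)), inv_app]
    · obtain ⟨k, hk, hk'⟩ := h4 (Finset.univ.image (U 2))
      refine ⟨k⁻¹ * g, mul_mem (inv_mem hk) hg, fun i => ?_⟩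
      change k⁻¹ (g (U 0 i)) = U 2 i
      rw [← h6, h7, h8, hk' _ (Finset.mem_image_of_mem _ (Finset.mem_univ i)), inv_app]
  obtain ⟨δ, hδ, h6⟩ := hR n 3 (Finset.univ.image U) c
  have h7 : ∀ k, c (fun i => δ (U 0 i)) = c (fun i => δ (U k i)) := fun k =>
    h6 _ (Finset.mem_image_of_mem _ (Finset.mem_univ 0)) _
      (Finset.mem_image_of_mem _ (Finset.mem_univ k)) (horb k)
  have h8 : ∀ k, c (fun i => δ (Z k i)) ≠ c (fun i => δ (U 0 i)) := by
    intro k
    rw [h7 k]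
    exact hc _ _ ((Pool.Agent.H81.SF.pp_aut (hG δ hδ) hE (Sum.elim (Z k) (U k))).1 (hZU k))
  have h9 : ∀ k k', k ≠ k' → c (fun i => δ (Z k i)) ≠ c (fun i => δ (Z k' i)) := fun k k' hk =>
    hc _ _ ((Pool.Agent.H81.SF.pp_aut (hG δ hδ) hE (Sum.elim (Z k) (Z k'))).1 (hZZ k k' hk))
  have key : ∀ (a : Fin 3) (b : Fin 3 → Fin 3), (∀ k, b k ≠ a) → ¬ ∀ k k', k ≠ k' → b k ≠ b k' := by
    decide
  exact key _ _ h8 h9

/-- self-embeddings of homogeneous structures are in the closure of the automorphism group -/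
theorem locallyIn_of_emb {τ : Sig} {𝔹 : Str τ A} (hB : Homogeneous 𝔹) {α : A → A}
    (h : IsEmb 𝔹 𝔹 α) : LocallyIn (autGroup 𝔹) α := by
  intro X
  obtain ⟨g, hg, hg'⟩ := hB X (fun x => α x) ⟨fun x y hxy => Subtype.ext (h.1 hxy),
    fun l x => h.2 l _⟩
  exact ⟨g, hg, fun x hx => (hg' ⟨x, hx⟩).symm⟩

end Pool.Agent.H50.PL
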