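import Pool.Agent.H50.PL.Ram
import Pool.Agent.H58.SF.K3

/-!
# Structures with Ramsey automorphism groups: a criterion for pp-constructing the triangle
-/

set_option autoImplicit false

namespace Pool.Agent.H50.PL

open Pool.Agent.H68.BP Pool.Agent.H58.SF Pool.Agent.H58.HN

variable {σ : Sig} {A : Type} {𝔸 : Str σ A} {G : Subgroup (Equiv.Perm A)}

theorem pp_inter {I : Type} {S T : Set (I → A)} (hS : PPDefinable 𝔸 S) (hT : PPDefinable 𝔸 T) :
    PPDefinable 𝔸 (S ∩ T) := by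
  obtain ⟨p, φ, hφ⟩ := hS
  obtain ⟨q, ψ, hψ⟩ := hT
  refine ⟨p + q, φ.map (mapAtom (Sum.map id (Fin.castAdd q))) ++
    ψ.map (mapAtom (Sum.map id (Fin.natAdd p))), fun x => ?_⟩
  have e1 : ∀ y : Fin (p + q) → A, (fun z => Sum.elim x y (Sum.map id (Fin.castAdd q) z)) =
      Sum.elim x fun i => y (Fin.castAdd q i) := by
    intro y
    funext z
    rcases z with z | z <;> rfl
  have e2 : ∀ y : Fin (p + q) → A, (fun z => Sum.elim x y (Sum.map id (Fin.natAdd p) z)) =
      Sum.elim x fun i => y (Fin.natAdd p i) := by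
    intro y
    funext z
    rcases z with z | z <;> rfl
  rw [Set.mem_inter_iff, hφ, hψ]
  constructor
  · rintro ⟨⟨y, hy⟩, ⟨y', hy'⟩⟩
    refine ⟨Fin.append y y', fun a ha => ?_⟩
    rcases List.mem_append.1 ha with ha | ha
    · obtain ⟨b, hb, rfl⟩ := List.mem_map.1 ha
      rw [holds_mapAtom, e1]
      have e3 : (fun i => Fin.append y y' (Fin.castAdd q i)) = y :=
        funext fun i => Fin.append_left y y' i
      rw [e3]
      exact hy b hb
    · obtain ⟨b, hb, rfl⟩ := List.mem_map.1 ha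
      rw [holds_mapAtom, e2]
      have e3 : (fun i => Fin.append y y' (Fin.natAdd p i)) = y' :=
        funext fun i => Fin.append_right y y' i
      rw [e3]
      exact hy' b hb
  · rintro ⟨y, hy⟩
    refine ⟨⟨fun i => y (Fin.castAdd q i), fun b hb => ?_⟩,
      ⟨fun i => y (Fin.natAdd p i), fun b hb => ?_⟩⟩
    · have h1 := hy _ (List.mem_append_left _ (List.mem_map.2 ⟨b, hb, rfl⟩))
      rw [holds_mapAtom, e1] at h1
      exact h1
    · have h1 := hy _ (List.mem_append_right _ (List.mem_map.2 ⟨b, hb, rfl⟩))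
      rw [holds_mapAtom, e2] at h1
      exact h1

theorem power_of_K3 (h : PPConstructsK3 𝔸) : NonbipartitePower 𝔸 := by
  obtain ⟨n, E, hn, hE, ⟨t, ht⟩, ⟨c, hc⟩⟩ := h
  refine ⟨n, fun u v => E u v ∧ E v u, hn, ?_, fun x y hxy => ⟨hxy.2, hxy.1⟩,
    ⟨3, c, fun x y hxy => hc x y hxy.1⟩, ?_⟩
  · intro l
    have h1 := ppDefinable_comap (𝔸 := 𝔸)
      (Sum.elim (fun u => ((0 : Fin 2), u)) (fun u => ((1 : Fin 2), u)) :
        Fin n ⊕ Fin n → Fin 2 × Fin n) hE
    have h2 := ppDefinable_comap (𝔸 := 𝔸)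
      (Sum.elim (fun u => ((1 : Fin 2), u)) (fun u => ((0 : Fin 2), u)) :
        Fin n ⊕ Fin n → Fin 2 × Fin n) hE
    exact pp_inter h1 h2
  · rintro ⟨d, hd⟩
    obtain ⟨a, b, hab, he⟩ := Fintype.exists_ne_map_eq_of_card_lt (fun i => d (t i)) (by simp)
    exact hd _ _ ⟨ht a b hab, ht b a hab.symm⟩ he

/-- Let the automorphisms of the countable structure `𝔸` contain a Ramsey group with finitely many
orbits on tuples. Then `𝔸` pp-constructs `K₃` if and only if one of its pp-powers is an undirected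
graph of finite chromatic number which is not bipartite. -/
theorem criterion (hRC : T_RC) (hRD : T_RD) (hA : Countable A) (hG : ∀ g ∈ G, IsAut 𝔸 g)
    (hO : OligoGroup G) (hR : TupleRamsey G) : PPConstructsK3 𝔸 ↔ NonbipartitePower 𝔸 := by
  refine ⟨power_of_K3, ?_⟩
  rintro ⟨n, P, hn, hP, hs, ⟨m, hm⟩, h2⟩
  refine graph_power hRC hRD hA hG hO hR hn hP hs (fun g hg x y hxy => ?_) hm h2
  have h3 := (Pool.Agent.H81.SF.pp_aut (hG g hg) (hP ⟨0, Nat.one_pos⟩) (fun z => ![x, y] z.1 z.2)).1 hxy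
  exact h3

end Pool.Agent.H50.PL
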