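import Pool.Agent.H58.SF.MH
import Pool.Agent.H58.SF.Asm

/-!
# Pseudo-loop conditions modulo groups of automorphisms: definitions
-/

set_option autoImplicit false

namespace Pool.Agent.H50.PL

open Pool.Agent.H68.BP Pool.Agent.H58.SF

/-- The group `G` of permutations is Ramsey: for each finite colouring of the `n`-tuples and each
finite set `F` of `n`-tuples there is `g ∈ G` such that the colours of `g x` and `g y` are the same
if `x`, `y` in `F` are in the same orbit of `G`. -/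
def TupleRamsey {A : Type} (G : Subgroup (Equiv.Perm A)) : Prop :=
  ∀ (n k : ℕ) (F : Finset (Fin n → A)) (χ : (Fin n → A) → Fin k), ∃ g ∈ G, ∀ x ∈ F, ∀ y ∈ F,
    (∃ γ ∈ G, ∀ i, γ (x i) = y i) → χ (fun i => g (x i)) = χ (fun i => g (y i))

/-- the substructure on a finite set -/
def sub {τ : Sig} {A : Type} (𝔹 : Str τ A) (X : Finset A) : Str τ X :=
  fun l x => 𝔹 l (fun i => (x i : A))

/-- `𝔹` is a Ramsey structure: for all finite substructures `X`, `Y` of `𝔹` and each colouring of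
the embeddings of `X` in `𝔹` with finitely many colours there is an embedding `e` of `Y` in `𝔹`
such that the embeddings `e ∘ f`, for all embeddings `f` of `X` in `Y`, have the same colour. -/
def Ramsey {τ : Sig} {A : Type} (𝔹 : Str τ A) : Prop :=
  ∀ (k : ℕ) (X Y : Finset A) (χ : (X → A) → Fin k), ∃ e : Y → A, IsEmb (sub 𝔹 Y) 𝔹 e ∧
    ∀ f f' : X → Y, IsEmb (sub 𝔹 X) (sub 𝔹 Y) f → IsEmb (sub 𝔹 X) (sub 𝔹 Y) f' →
      χ (fun a => e (f a)) = χ (fun a => e (f' a))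

/-- the arcs of a graph -/
abbrev Arcs {W : Type} (S : W → W → Prop) : Type := {p : W × W // S p.1 p.2}

variable {σ τ : Sig} {A : Type}

/-- The function `s` is canonical with respect to the group `G` acting on all arguments at the same
time: for all `x j : I → A` (`j < n`) and `γ ∈ G` the tuples with the entries `s (γ ∘ x j)` and
`s (x j)` are in the same orbit of `G`. -/
def Canonical (G : Subgroup (Equiv.Perm A)) {I : Type} (s : (I → A) → A) : Prop :=
  ∀ (n : ℕ) (x : Fin n → I → A), ∀ γ ∈ G, ∃ h ∈ G, ∀ j, s (fun i => γ (x j i)) = h (s (x j))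

/-- The pseudo-loop condition of the graph `S` modulo `G`: there are a polymorphism `s` of `𝔸`
whose arguments are indexed by the arcs of `S` and maps `α`, `β` in the closure of the group `G`
with `α (s (tails)) = β (s (heads))` for all `x : W → A`, where the argument of `s` at the arc
`(a, b)` is `x a` on the left and `x b` on the right. -/
def PseudoLoopMod (𝔸 : Str σ A) (G : Subgroup (Equiv.Perm A)) {W : Type} (S : W → W → Prop) :
    Prop :=
  ∃ (s : (Arcs S → A) → A) (α β : A → A), IsPoly 𝔸 𝔸 s ∧ LocallyIn G α ∧ LocallyIn G β ∧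
    ∀ x : W → A, α (s fun p => x p.1.1) = β (s fun p => x p.1.2)

/-- The pseudo-loop condition of `S` modulo `G` for canonical functions. -/
def CanonicalLoopMod (𝔸 : Str σ A) (G : Subgroup (Equiv.Perm A)) {W : Type} (S : W → W → Prop) :
    Prop :=
  ∃ (s : (Arcs S → A) → A) (α β : A → A), IsPoly 𝔸 𝔸 s ∧ Canonical G s ∧ LocallyIn G α ∧
    LocallyIn G β ∧ ∀ x : W → A, α (s fun p => x p.1.1) = β (s fun p => x p.1.2)

/-- The pseudo-Siggers identity modulo `G`. -/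
def PseudoSiggersMod (𝔸 : Str σ A) (G : Subgroup (Equiv.Perm A)) : Prop :=
  ∃ (s : (Fin 6 → A) → A) (α β : A → A), IsPoly 𝔸 𝔸 s ∧ LocallyIn G α ∧ LocallyIn G β ∧
    ∀ x y z : A, α (s ![x, y, z, x, y, z]) = β (s ![y, z, x, z, x, y])

/-- The pseudo-Siggers identity modulo `G` for canonical functions. -/
def CanonicalSiggersMod (𝔸 : Str σ A) (G : Subgroup (Equiv.Perm A)) : Prop :=
  ∃ (s : (Fin 6 → A) → A) (α β : A → A), IsPoly 𝔸 𝔸 s ∧ Canonical G s ∧ LocallyIn G α ∧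
    LocallyIn G β ∧ ∀ x y z : A, α (s ![x, y, z, x, y, z]) = β (s ![y, z, x, z, x, y])

/-- `𝔸` has a pp-power (of dimension `n ≥ 1`) which is an undirected graph, has finite chromatic
number and is not bipartite. -/
def NonbipartitePower (𝔸 : Str σ A) : Prop :=
  ∃ (n : ℕ) (P : (Fin n → A) → (Fin n → A) → Prop), 1 ≤ n ∧ PPPower 𝔸 n (graph P) ∧
    (∀ x y, P x y → P y x) ∧ (∃ m, Colorable P m) ∧ ¬ Colorable P 2

/-- `𝔸` has a polymorphism `s` with `α (s (x, y, z, x, y, z)) = β (s (y, z, x, z, x, y))` for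
self-embeddings `α`, `β` of `𝔹`. -/
def SiggersEmb (𝔸 : Str σ A) (𝔹 : Str τ A) : Prop :=
  ∃ (s : (Fin 6 → A) → A) (α β : A → A), IsPoly 𝔸 𝔸 s ∧ IsEmb 𝔹 𝔹 α ∧ IsEmb 𝔹 𝔹 β ∧
    ∀ x y z : A, α (s ![x, y, z, x, y, z]) = β (s ![y, z, x, z, x, y])

/-- Here `s` is moreover canonical with respect to the automorphism group of `𝔹`. -/
def CanonicalSiggersEmb (𝔸 : Str σ A) (𝔹 : Str τ A) : Prop :=
  ∃ (s : (Fin 6 → A) → A) (α β : A → A), IsPoly 𝔸 𝔸 s ∧ Canonical (autGroup 𝔹) s ∧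
    IsEmb 𝔹 𝔹 α ∧ IsEmb 𝔹 𝔹 β ∧
    ∀ x y z : A, α (s ![x, y, z, x, y, z]) = β (s ![y, z, x, z, x, y])

/-- `𝔸` has a polymorphism `o` with
`α (o (x, x, y, y, y, x)) = β (o (x, y, x, y, x, y)) = γ (o (y, x, x, x, y, y))` for
self-embeddings `α`, `β`, `γ` of `𝔹`. -/
def OlsakEmb (𝔸 : Str σ A) (𝔹 : Str τ A) : Prop :=
  ∃ (o : (Fin 6 → A) → A) (α β γ : A → A), IsPoly 𝔸 𝔸 o ∧ IsEmb 𝔹 𝔹 α ∧ IsEmb 𝔹 𝔹 β ∧
    IsEmb 𝔹 𝔹 γ ∧ ∀ x y : A,
      α (o ![x, x, y, y, y, x]) = β (o ![x, y, x, y, x, y]) ∧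
      β (o ![x, y, x, y, x, y]) = γ (o ![y, x, x, x, y, y])

/-- The pseudo-loop condition of the graph `S` with self-embeddings `α`, `β` of `𝔹`. -/
def LoopEmb (𝔸 : Str σ A) (𝔹 : Str τ A) {W : Type} (S : W → W → Prop) : Prop :=
  ∃ (s : (Arcs S → A) → A) (α β : A → A), IsPoly 𝔸 𝔸 s ∧ IsEmb 𝔹 𝔹 α ∧ IsEmb 𝔹 𝔹 β ∧
    ∀ x : W → A, α (s fun p => x p.1.1) = β (s fun p => x p.1.2)

/-- Here `s` is moreover canonical with respect to the automorphism group of `𝔹`. -/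
def CanonicalLoopEmb (𝔸 : Str σ A) (𝔹 : Str τ A) {W : Type} (S : W → W → Prop) : Prop :=
  ∃ (s : (Arcs S → A) → A) (α β : A → A), IsPoly 𝔸 𝔸 s ∧ Canonical (autGroup 𝔹) s ∧
    IsEmb 𝔹 𝔹 α ∧ IsEmb 𝔹 𝔹 β ∧ ∀ x : W → A, α (s fun p => x p.1.1) = β (s fun p => x p.1.2)

end Pool.Agent.H50.PL
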