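import Pool.Agent.H50.PL.Conv

/-!
# Structures with a Ramsey group of automorphisms: equivalent conditions
-/

set_option autoImplicit false

namespace Pool.Agent.H50.PL

open Pool.Agent.H68.BP Pool.Agent.H58.SF Pool.Agent.H58.HN

variable {σ : Sig} {A : Type} {𝔸 : Str σ A} {G : Subgroup (Equiv.Perm A)}

theorem mod_of_canonical {W : Type} {S : W → W → Prop} (h : CanonicalLoopMod 𝔸 G S) :
    PseudoLoopMod 𝔸 G S := by
  obtain ⟨s, α, β, h1, -, h2, h3, h4⟩ := h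
  exact ⟨s, α, β, h1, h2, h3, h4⟩

theorem siggers_of_canonical (h : CanonicalSiggersMod 𝔸 G) : PseudoSiggersMod 𝔸 G := by
  obtain ⟨s, α, β, h1, -, h2, h3, h4⟩ := h
  exact ⟨s, α, β, h1, h2, h3, h4⟩

theorem k3_colorable : Colorable (fun a b : Fin 3 => a ≠ b) 3 := ⟨id, fun _ _ h => h⟩

theorem equivalences (hRC : T_RC) (hRD : T_RD) (hOS : T_OS) (hPO : T_PO) (hA : Countable A)
    (hG : ∀ g ∈ G, IsAut 𝔸 g) (hO : OligoGroup G) (hR : TupleRamsey G) :
    List.TFAE [¬ PPConstructsK3 𝔸, ¬ NonbipartitePower 𝔸, PseudoOlsakMod 𝔸 G,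
      PseudoSiggersMod 𝔸 G, CanonicalSiggersMod 𝔸 G,
      ∃ (W : Type) (S : W → W → Prop), Colorable S 3 ∧ PseudoLoopMod 𝔸 G S,
      ∀ (W : Type) [Finite W] (S : W → W → Prop), (∀ a b, S a b → S b a) →
        ¬ Colorable S 2 → CanonicalLoopMod 𝔸 G S] := by
  tfae_have 1 ↔ 2 := not_congr (criterion hRC hRD hA hG hO hR)
  tfae_have 1 → 3 := pseudo_mod hOS hPO hA hG hO
  tfae_have 3 → 1 := not_K3_of_olsak hG hR
  tfae_have 1 → 7 := by
    intro hK W _ S hS hS2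
    obtain ⟨a₀⟩ := arcs_nonempty hS2
    exact canon_loop hA hG hO hR S (pseudo_loop hRC hRD hA hG hO hR hK S hS hS2) a₀
  tfae_have 7 → 5 := by
    intro h
    exact canonSiggers_of_loop (h (Fin 3) (fun a b => a ≠ b) (fun a b h => h.symm) k3_not_two)
  tfae_have 5 → 4 := siggers_of_canonical
  tfae_have 4 → 6 := by
    intro h
    exact ⟨Fin 3, fun a b => a ≠ b, k3_colorable, loop_of_siggers h⟩
  tfae_have 6 → 1 := by
    rintro ⟨W, S, hS, h⟩
    exact not_K3_of_loop hG hR hS h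
  tfae_finish

end Pool.Agent.H50.PL
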