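import Pool.Agent.H50.PL.Loc

/-!
# Pseudo-loop conditions modulo Ramsey groups: the global statement
-/

set_option autoImplicit false

namespace Pool.Agent.H50.PL

open Pool.Agent.H68.BP Pool.Agent.H58.SF Pool.Agent.H58.HN

variable {σ : Sig} {A : Type} {𝔸 : Str σ A} {G : Subgroup (Equiv.Perm A)}

theorem arcs_nonempty {W : Type} {S : W → W → Prop} (h : ¬ Colorable S 2) : Nonempty (Arcs S) := by
  by_contra hE
  exact h ⟨fun _ => 0, fun a b hab => (hE ⟨⟨(a, b), hab⟩⟩).elim⟩

theorem pseudo_loop (hRC : T_RC) (hRD : T_RD) (hA : Countable A) (hG : ∀ g ∈ G, IsAut 𝔸 g)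
    (hO : OligoGroup G) (hR : TupleRamsey G) (hK : ¬ PPConstructsK3 𝔸) {W : Type} [Finite W]
    (S : W → W → Prop) (hS : ∀ a b, S a b → S b a) (hS2 : ¬ Colorable S 2) :
    PseudoLoopMod 𝔸 G S := by
  classical
  obtain ⟨a₀⟩ := arcs_nonempty hS2
  rcases isEmpty_or_nonempty A with hE | hN
  · refine ⟨fun x => x a₀, id, id, ?_, ?_, ?_, fun x => hE.elim (x a₀.1.1)⟩
    · intro l x hx
      exact hx a₀
    all_goals
      intro X
      exact ⟨1, one_mem G, fun x _ => rfl⟩
  obtain ⟨F, hF1, hF2⟩ := exists_exhaustion A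
  have h1 := fun m => local_loop hRC hRD hA hG hO hR hK S hS hS2 (F m) (hF1 m)
  choose f hf g hg hfg using h1
  have := Fintype.ofFinite W
  have := Fintype.ofFinite (Arcs S)
  -- the polymorphism
  obtain ⟨s, hs⟩ := limG hO (Arcs S → A) f
  have hpoly : IsPoly 𝔸 𝔸 s := by
    intro l x hx
    let X : Finset (Arcs S → A) := Finset.univ.image (fun k i => x i k)
    let Y : Finset A := Finset.univ.image (fun q : Arcs S × Fin (σ.ar l) => x q.1 q.2)
    obtain ⟨n, hn⟩ := hF2 Y
    obtain ⟨m, hm, γ, hγ, hom⟩ := hs X n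
    have h2 : 𝔸 l (fun k => f m (fun i => x i k)) := hf m l x (fun i k =>
      hn m hm (Finset.mem_image_of_mem (fun q : Arcs S × Fin (σ.ar l) => x q.1 q.2)
        (Finset.mem_univ (i, k)))) hx
    have h3 := (hG γ hγ l _).1 h2
    have e : (fun k => γ (f m (fun i => x i k))) = fun k => s (fun i => x i k) := by
      funext k
      exact (hom _ (Finset.mem_image_of_mem (fun k i => x i k) (Finset.mem_univ k))).symm
    rw [e] at h3
    exact h3
  have hloc : ∀ Y : Finset A, ∃ k ∈ G, ∀ x : W → A, (∀ w, x w ∈ Y) →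
      s (fun p => x p.1.1) = k (s (fun p => x p.1.2)) := by
    intro Y
    let Z : Finset (W → A) := Fintype.piFinset fun _ => Y
    let X : Finset (Arcs S → A) :=
      Z.image (fun (x : W → A) (p : Arcs S) => x p.1.1) ∪
        Z.image (fun (x : W → A) (p : Arcs S) => x p.1.2)
    obtain ⟨n, hn⟩ := hF2 Y
    obtain ⟨m, hm, γ, hγ, hom⟩ := hs X n
    refine ⟨γ * (g m * γ⁻¹), mul_mem hγ (mul_mem (hg m) (inv_mem hγ)), fun x hx => ?_⟩
    have hxZ : x ∈ Z := Fintype.mem_piFinset.2 hx
    rw [hom _ (Finset.mem_union_left _ (Finset.mem_image_of_mem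
        (fun (x : W → A) (p : Arcs S) => x p.1.1) hxZ)),
      hom _ (Finset.mem_union_right _ (Finset.mem_image_of_mem
        (fun (x : W → A) (p : Arcs S) => x p.1.2) hxZ)),
      hfg m x fun w => hn m hm (hx w)]
    change _ = γ (g m (γ⁻¹ (γ (f m (fun p => x p.1.2)))))
    rw [inv_app]
  -- the unary maps
  have hloc' := fun m => hloc (F m)
  choose k hk hko using hloc'
  obtain ⟨H, hH⟩ := limG hO (Bool × A) (fun m q => if q.1 then k m q.2 else q.2)
  have key0 : LocallyIn G (fun a => H (false, a)) := by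
    intro X
    obtain ⟨m, -, γ, hγ, h2⟩ := hH (X.image (fun a => (false, a))) 0
    exact ⟨γ, hγ, fun x hx => h2 (false, x) (Finset.mem_image_of_mem _ hx)⟩
  have key1 : LocallyIn G (fun a => H (true, a)) := by
    intro X
    obtain ⟨m, -, γ, hγ, h2⟩ := hH (X.image (fun a => (true, a))) 0
    exact ⟨γ * k m, mul_mem hγ (hk m), fun x hx =>
      h2 (true, x) (Finset.mem_image_of_mem _ hx)⟩
  refine ⟨s, fun a => H (false, a), fun a => H (true, a), hpoly, key0, key1, fun x => ?_⟩
  obtain ⟨n, hn⟩ := hF2 (Finset.univ.image x)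
  obtain ⟨m, hm, γ, hγ, h2⟩ := hH {(false, s (fun p => x p.1.1)), (true, s (fun p => x p.1.2))} n
  have h3 := h2 (false, s (fun p => x p.1.1)) (by simp)
  have h4 := h2 (true, s (fun p => x p.1.2)) (by simp)
  have h5 := hko m x (fun w => hn m hm (Finset.mem_image_of_mem x (Finset.mem_univ w)))
  change H (false, s (fun p => x p.1.1)) = H (true, s (fun p => x p.1.2))
  rw [h3, h4]
  change γ (s (fun p => x p.1.1)) = γ (k m (s (fun p => x p.1.2)))
  rw [← h5]

/-- the pseudo-Siggers identity is the condition of the triangle -/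
theorem siggers_of_loop (h : PseudoLoopMod 𝔸 G fun a b : Fin 3 => a ≠ b) :
    PseudoSiggersMod 𝔸 G := by
  obtain ⟨s, α, β, h1, h2, h3, h4⟩ := h
  -- numbering of the arcs
  let c : Arcs (fun a b : Fin 3 => a ≠ b) → Fin 6 := fun p =>
    ![![0, 0, 3], ![4, 0, 1], ![2, 5, 0]] p.1.1 p.1.2
  refine ⟨fun x => s fun p => x (c p), α, β, ?_, h2, h3, fun x y z => ?_⟩
  · intro l x hx
    exact h1 l (fun p => x (c p)) fun p => hx (c p)
  · have h5 := h4 ![x, y, z]
    have e1 : (fun p : Arcs (fun a b : Fin 3 => a ≠ b) => ![x, y, z] p.1.1) =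
        fun p => ![x, y, z, x, y, z] (c p) := by
      funext p
      obtain ⟨⟨a, b⟩, hab⟩ := p
      fin_cases a <;> fin_cases b <;> first | rfl | exact absurd rfl hab
    have e2 : (fun p : Arcs (fun a b : Fin 3 => a ≠ b) => ![x, y, z] p.1.2) =
        fun p => ![y, z, x, z, x, y] (c p) := by
      funext p
      obtain ⟨⟨a, b⟩, hab⟩ := p
      fin_cases a <;> fin_cases b <;> first | rfl | exact absurd rfl hab
    rw [e1, e2] at h5
    exact h5

theorem k3_not_two : ¬ Colorable (fun a b : Fin 3 => a ≠ b) 2 := by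
  rintro ⟨c, hc⟩
  obtain ⟨a, b, hab, he⟩ := Fintype.exists_ne_map_eq_of_card_lt c (by simp)
  exact hc a b hab he

end Pool.Agent.H50.PL
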