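import Pool.Agent.H52.HN.AA
import Pool.Agent.H20.HN.AB
import Pool.Agent.H52.HN.AC
import Pool.Agent.H52.HN.AD
import Pool.Agent.H52.HN.AE
import Pool.Agent.H20.HN.AF
import Pool.Agent.H97.HN.FA
import Pool.Agent.H70.HN.GA
import Pool.Agent.H54.HN.GB
import Pool.Agent.H52.HN.GC
import Pool.Agent.H97.HN.GD
import Pool.Agent.H40.HN.GE
import Pool.Agent.H40.HN.GF
import Pool.Agent.H68.HN.GG
import Pool.Agent.H89.HN.LA
import Pool.Agent.H22.HN.LB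
import Pool.Agent.H68.HN.LC
import Pool.Agent.H97.HN.LD
import Pool.Agent.H97.HN.LE
import Pool.Agent.H97.HN.LF
import Pool.Agent.H97.HN.RA
import Pool.Agent.H22.HN.RB
import Pool.Agent.H22.HN.RC
import Pool.Agent.H97.HN.RD
import Pool.Agent.H1.HN.TA
import Pool.Agent.H1.HN.TB
import Pool.Agent.H58.HN.TC
import Pool.Agent.H34.HN.TD
import Pool.Agent.H34.HN.TE
import Pool.Agent.H68.HN.TF
import Pool.Agent.H68.HN.TG
import Pool.Agent.H1.HN.TH
import Pool.Agent.H9.HN.TI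
import Pool.Agent.H9.HN.TJ
import Pool.Agent.H20.HN.TK
import Pool.Agent.H22.HN.TL
import Pool.Agent.H22.HN.TM
import Pool.Agent.H13.HN.TN
import Pool.Agent.H35.HN.TO
import Pool.Agent.H68.HN.TOP

/-!
# Assembly of the theorem on graphs with the same finite images as a finite graph
-/

set_option autoImplicit false

namespace Pool.Agent.H50.PL

open Pool.Agent.H58.HN

theorem AA : T_AA := Pool.Agent.H52.HN.pf_AA
theorem AB : T_AB := Pool.Agent.H20.HN.AB.pf_AB AA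
theorem AD : T_AD := Pool.Agent.H52.HN.pf_AD Pool.Agent.H52.HN.pf_AC
theorem AE : T_AE := Pool.Agent.H52.HN.pf_AE
theorem AF : T_AF := Pool.Agent.H20.HN.AF.pf_AF AA AB AD AE
theorem TA : T_TA := Pool.Agent.H1.HN.pf_TA
theorem TB : T_TB := Pool.Agent.H1.HN.pf_TB
theorem TC : T_TC := Pool.Agent.H58.HN.pf_TC
theorem TD : T_TD := Pool.Agent.H34.HN.pf_TD TA TB TC
theorem TE : T_TE := Pool.Agent.H34.HN.pf_TE TA TB TC
theorem TI : T_TI := Pool.Agent.H9.HN.pf_TI TA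
theorem TJ : T_TJ := Pool.Agent.H9.HN.pf_TJ
theorem TK : T_TK2 := Pool.Agent.H20.HN.TK.pf_TK TA TB TC TI
theorem TM : T_TM := Pool.Agent.H22.HN.pf_TM TA
theorem TN : T_TN := Pool.Agent.H13.HN.pf_TN TJ
theorem TO : T_TO := Pool.Agent.H35.HN.pf_TO TA TI TJ TM TN
theorem TOP : T_TOP := Pool.Agent.H68.HN.pf_TOP TA TD TE Pool.Agent.H68.HN.pf_TF
  (Pool.Agent.H68.HN.pf_TG TA) Pool.Agent.H1.HN.pf_TH TK (Pool.Agent.H22.HN.pf_TL TJ) TO
theorem GB : T_GB := Pool.Agent.H54.HN.pf_GB Pool.Agent.H70.HN.pf_GA TOP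
theorem GC : T_GC := Pool.Agent.H52.HN.pf_GC
theorem GD : T_GD := Pool.Agent.H97.HN.pf_GD GC
theorem GG : T_GG := Pool.Agent.H68.HN.pf_GG Pool.Agent.H40.HN.pf_GE Pool.Agent.H40.HN.pf_GF
theorem LA : T_LA := Pool.Agent.H89.HN.pf_LA
theorem LB : T_LB := Pool.Agent.H22.HN.pf_LB LA GC
theorem LD : T_LD := Pool.Agent.H97.HN.pf_LD Pool.Agent.H68.HN.pf_LC
theorem LE : T_LE := Pool.Agent.H97.HN.pf_LE LB LD GD
theorem LF : T_LF := Pool.Agent.H97.HN.pf_LF LA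
theorem FA : T_FA := Pool.Agent.H97.HN.pf_FA GB GG AF LE LF
theorem RC : T_RC := Pool.Agent.H22.HN.pf_RC FA Pool.Agent.H97.HN.pf_RA Pool.Agent.H22.HN.pf_RB
theorem RD : T_RD := Pool.Agent.H97.HN.pf_RD

end Pool.Agent.H50.PL
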