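import Pool.Agent.H58.HN.TargetsG
import Pool.Agent.H50.PL.Defs
import Pool.Agent.H51.SF.TR
import Pool.Agent.H81.SF.PO

/-!
# Pseudo-loop conditions modulo Ramsey groups: graphs of finite chromatic number, local statement
-/

set_option autoImplicit false

namespace Pool.Agent.H50.PL

open Pool.Agent.H68.BP Pool.Agent.H58.SF Pool.Agent.H58.HN

variable {σ : Sig} {A : Type} {𝔸 : Str σ A} {G : Subgroup (Equiv.Perm A)}

/-- the action on tuples -/
def dg (n : ℕ) : Equiv.Perm A →* Equiv.Perm (Fin n → A) where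
  toFun g := Equiv.piCongrRight fun _ => g
  map_one' := rfl
  map_mul' _ _ := rfl

theorem dg_apply (n : ℕ) (g : Equiv.Perm A) (x : Fin n → A) : dg n g x = fun i => g (x i) := rfl

theorem age_dg (hR : TupleRamsey G) (n : ℕ) :
    Pool.Agent.H53.FC.AgeIndivisible (G.map (dg (A := A) n)) := by
  intro k F χ
  obtain ⟨g, hg, h⟩ := hR n k F χ
  refine ⟨dg n g, Subgroup.mem_map_of_mem _ hg, fun x hx y hy hxy => ?_⟩
  obtain ⟨γ, hγ, he⟩ := hxy
  obtain ⟨γ', hγ', rfl⟩ := Subgroup.mem_map.1 hγ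
  exact h x hx y hy ⟨γ', hγ', fun i => congrFun he i⟩

/-- A pp-power of dimension `n` which is an undirected graph of finite chromatic number and not
bipartite gives `K₃`, if the automorphisms contain a Ramsey group with finitely many orbits on
tuples. -/
theorem graph_power (hRC : T_RC) (hRD : T_RD) (hA : Countable A) (hG : ∀ g ∈ G, IsAut 𝔸 g)
    (hO : OligoGroup G) (hR : TupleRamsey G) {n : ℕ} (hn : 1 ≤ n)
    {P : (Fin n → A) → (Fin n → A) → Prop} (hP : PPPower 𝔸 n (graph P))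
    (hs : ∀ x y, P x y → P y x) (hinv : ∀ g ∈ G, ∀ x y, P x y →
      P (fun i => g (x i)) (fun i => g (y i))) {m : ℕ} (hm : Colorable P m)
    (h2 : ¬ Colorable P 2) : PPConstructsK3 𝔸 := by
  classical
  have hol : Oligo 𝔸 := by
    intro n
    obtain ⟨R, hR⟩ := hO n
    refine ⟨R, fun x => ?_⟩
    obtain ⟨y, hy, g, hg, hgy⟩ := hR x
    exact ⟨y, hy, g, hG g hg, hgy⟩
  obtain ⟨T, R, hT⟩ := hRD (Fin n → A) P m (G.map (dg n)) hs hm (age_dg hR n) (by
      intro g hg x y hxy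
      obtain ⟨g', hg', rfl⟩ := Subgroup.mem_map.1 hg
      exact hinv g' hg' x y hxy) (by
      obtain ⟨R, hR⟩ := hO n
      refine ⟨R, fun x => ?_⟩
      obtain ⟨y, hy, g, hg, hgy⟩ := hR x
      exact ⟨y, hy, dg n g, Subgroup.mem_map_of_mem _ hg, funext hgy⟩)
  have hol' : Oligo (graph P) := Pool.Agent.H81.SF.pf_PO σ _ A 𝔸 n (graph P) hP hol
  have h3 : PPConstructsK3 (graph P) :=
    hRC (Fin n → A) T P R inferInstance hol' hs hT h2
  exact Pool.Agent.H51.SF.pf_TR σ _ A 𝔸 n (graph P) hn hP h3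

/-- the local statement -/
theorem local_loop (hRC : T_RC) (hRD : T_RD) (hA : Countable A) (hG : ∀ g ∈ G, IsAut 𝔸 g)
    (hO : OligoGroup G) (hR : TupleRamsey G) (hK : ¬ PPConstructsK3 𝔸) {W : Type} [Finite W]
    (S : W → W → Prop) (hS : ∀ a b, S a b → S b a) (hS2 : ¬ Colorable S 2) (F : Finset A)
    (hF : F.Nonempty) :
    ∃ f : (Arcs S → A) → A, PartPoly 𝔸 F f ∧ ∃ g ∈ G, ∀ x : W → A, (∀ w, x w ∈ F) →
      f (fun p => x p.1.1) = g (f (fun p => x p.1.2)) := by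
  classical
  by_contra hcon
  have := Fintype.ofFinite W
  let N := W → F
  obtain ⟨a₀, ha₀⟩ := hF
  let n := Fintype.card N
  let e : N ≃ Fin n := Fintype.equivFin N
  have hn : 1 ≤ n := Fintype.card_pos_iff.2 ⟨fun _ => ⟨a₀, ha₀⟩⟩
  -- the graph
  let P : (Fin n → A) → (Fin n → A) → Prop := fun w z =>
    ∃ h : (Arcs S → A) → A, PartPoly 𝔸 F h ∧
      (∀ u : Fin n, h (fun p => (e.symm u p.1.1 : A)) = w u) ∧
      ∀ u : Fin n, h (fun p => (e.symm u p.1.2 : A)) = z u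
  have hs : ∀ w z, P w z → P z w := by
    rintro w z ⟨h, h1, h2, h3⟩
    refine ⟨fun x => h (fun p => x ⟨(p.1.2, p.1.1), hS _ _ p.2⟩), ?_, h3, h2⟩
    intro l x hx hxl
    exact h1 l (fun p => x ⟨(p.1.2, p.1.1), hS _ _ p.2⟩) (fun p k => hx _ k) (fun p => hxl _)
  have hP : PPPower 𝔸 n (graph P) := by
    intro l
    have h1 := pf_PW σ A 𝔸 F (Arcs S) (Fin n) (fun u p => (e.symm u p.1.1 : A))
      (fun u p => (e.symm u p.1.2 : A)) (fun u p => (e.symm u p.1.1).2)
      (fun u p => (e.symm u p.1.2).2)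
    have h2 := ppDefinable_comap (𝔸 := 𝔸)
      (Sum.elim (fun u => ((0 : Fin 2), u)) (fun u => ((1 : Fin 2), u)) :
        Fin n ⊕ Fin n → Fin 2 × Fin n) h1
    exact h2
  have hinv : ∀ g ∈ G, ∀ x y, P x y → P (fun i => g (x i)) (fun i => g (y i)) := by
    rintro g hg x y ⟨h, h1, h2, h3⟩
    refine ⟨fun v => g (h v), ?_, fun u => congrArg g (h2 u), fun u => congrArg g (h3 u)⟩
    intro l v hv hvl
    exact (hG g hg l _).1 (h1 l v hv hvl)
  have hno : ∀ w z, P w z → ¬ ∃ g ∈ G, ∀ u, g (w u) = z u := by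
    rintro w z ⟨h, h1, h2, h3⟩ ⟨g, hg, hgw⟩
    refine hcon ⟨h, h1, g⁻¹, inv_mem hg, fun x hx => ?_⟩
    let x' : N := fun w => ⟨x w, hx w⟩
    have e1 := h2 (e x')
    have e2 := h3 (e x')
    rw [Equiv.symm_apply_apply] at e1 e2
    have e3 : h (fun p => x p.1.1) = w (e x') := e1
    have e4 : h (fun p => x p.1.2) = z (e x') := e2
    rw [e3, e4, ← hgw (e x'), inv_app]
  have hT : Finite (Quotient (orbSetoid G (Fin n))) := orb_finite hO (Fin n)
  have hm : ∃ m, Colorable P m := by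
    obtain ⟨m, ⟨q⟩⟩ := Finite.exists_equiv_fin (Quotient (orbSetoid G (Fin n)))
    refine ⟨m, fun w => q (Quotient.mk _ w), fun x y hxy he => ?_⟩
    exact hno x y hxy (Quotient.exact (q.injective he))
  obtain ⟨m, hm⟩ := hm
  have h2 : ¬ Colorable P 2 := by
    rintro ⟨c, hc⟩
    refine hS2 ⟨fun w => c (fun u => (e.symm u w : A)), fun a b hab => hc _ _ ?_⟩
    refine ⟨fun x => x ⟨(a, b), hab⟩, ?_, fun u => rfl, fun u => rfl⟩
    intro l x _ hxl
    exact hxl _
  exact hK (graph_power hRC hRD hA hG hO hR hn hP hs hinv hm h2)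

end Pool.Agent.H50.PL
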