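import Pool.Agent.H50.PL.Glob

/-!
# Automorphism groups of homogeneous Ramsey structures
-/

set_option autoImplicit false

namespace Pool.Agent.H50.PL

open Pool.Agent.H68.BP Pool.Agent.H58.SF Pool.Agent.H58.HN Filter

variable {A : Type} {G : Subgroup (Equiv.Perm A)}

/-- `χ'` is on each finite set of the form `χ ∘ g` -/
def LL (G : Subgroup (Equiv.Perm A)) {n k : ℕ} (χ χ' : (Fin n → A) → Fin k) : Prop :=
  ∀ F : Finset (Fin n → A), ∃ g ∈ G, ∀ x ∈ F, χ' x = χ (fun i => g (x i))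

/-- `χ` is constant on the orbit of `t` -/
def ConstOn (G : Subgroup (Equiv.Perm A)) {n k : ℕ} (χ : (Fin n → A) → Fin k) (t : Fin n → A) :
    Prop :=
  ∀ γ ∈ G, ∀ γ' ∈ G, χ (fun i => γ (t i)) = χ (fun i => γ' (t i))

theorem ll_refl {n k : ℕ} (χ : (Fin n → A) → Fin k) : LL G χ χ := fun _ =>
  ⟨1, one_mem G, fun _ _ => rfl⟩

theorem ll_trans {n k : ℕ} {χ χ' χ'' : (Fin n → A) → Fin k} (h : LL G χ χ') (h' : LL G χ' χ'') :
    LL G χ χ'' := by
  classical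
  intro F
  obtain ⟨g', hg', h2⟩ := h' F
  obtain ⟨g, hg, h1⟩ := h (F.image fun x i => g' (x i))
  refine ⟨g * g', mul_mem hg hg', fun x hx => ?_⟩
  rw [h2 x hx, h1 _ (Finset.mem_image_of_mem _ hx)]
  rfl

theorem const_ll {n k : ℕ} {χ χ' : (Fin n → A) → Fin k} (h : LL G χ χ') {t : Fin n → A}
    (hc : ConstOn G χ t) : ConstOn G χ' t := by
  classical
  intro γ hγ γ' hγ'
  obtain ⟨g, hg, h1⟩ := h {fun i => γ (t i), fun i => γ' (t i)}
  rw [h1 _ (by simp), h1 _ (by simp)]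
  exact hc (g * γ) (mul_mem hg hγ) (g * γ') (mul_mem hg hγ')

/-- limits of colourings -/
theorem lim_col {n k : ℕ} (χ : (Fin n → A) → Fin k) (t : Fin n → A)
    (h : ∀ F : Finset (Fin n → A), ∃ g ∈ G, ∀ γ ∈ G, ∀ γ' ∈ G, (fun i => γ (t i)) ∈ F →
      (fun i => γ' (t i)) ∈ F → χ (fun i => g (γ (t i))) = χ (fun i => g (γ' (t i)))) :
    ∃ χ', LL G χ χ' ∧ ConstOn G χ' t := by
  classical
  choose g hg hgc using h
  let U : Ultrafilter (Finset (Fin n → A)) := Ultrafilter.of atTop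
  have hU : (U : Filter (Finset (Fin n → A))) ≤ atTop := Ultrafilter.of_le _
  have hlim : ∀ x : Fin n → A, ∃ c : Fin k, ∀ᶠ F in (U : Filter (Finset (Fin n → A))),
      χ (fun i => g F (x i)) = c := by
    intro x
    obtain ⟨c, hc⟩ := Ultrafilter.eq_pure_of_finite (U.map fun F => χ (fun i => g F (x i)))
    refine ⟨c, ?_⟩
    have h1 : ({c} : Set (Fin k)) ∈ U.map fun F => χ (fun i => g F (x i)) := by
      rw [hc]
      exact Filter.mem_pure.2 rfl
    exact h1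
  choose χ' hχ' using hlim
  have hall : ∀ F₀ : Finset (Fin n → A), ∀ᶠ F in (U : Filter (Finset (Fin n → A))),
      ∀ x ∈ F₀, χ (fun i => g F (x i)) = χ' x := fun F₀ =>
    (Filter.eventually_all_finset F₀).2 fun x _ => hχ' x
  refine ⟨χ', fun F₀ => ?_, fun γ hγ γ' hγ' => ?_⟩
  · obtain ⟨F, hF⟩ := (hall F₀).exists
    exact ⟨g F, hg F, fun x hx => (hF x hx).symm⟩
  · have h1 : ∀ᶠ F in (U : Filter (Finset (Fin n → A))),
        {fun i => γ (t i), fun i => γ' (t i)} ⊆ F := hU (eventually_ge_atTop _)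
    obtain ⟨F, hF, hF'⟩ := ((hall {fun i => γ (t i), fun i => γ' (t i)}).and h1).exists
    rw [← hF _ (by simp), ← hF _ (by simp)]
    exact hgc F γ hγ γ' hγ' (hF' (by simp)) (hF' (by simp))

theorem tupleRamsey_of_single (h : ∀ (n k : ℕ) (χ : (Fin n → A) → Fin k) (t : Fin n → A)
    (F : Finset (Fin n → A)), ∃ g ∈ G, ∀ γ ∈ G, ∀ γ' ∈ G, (fun i => γ (t i)) ∈ F →
      (fun i => γ' (t i)) ∈ F → χ (fun i => g (γ (t i))) = χ (fun i => g (γ' (t i)))) :
    TupleRamsey G := by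
  classical
  intro n k F χ
  have key : ∀ L : List (Fin n → A), ∃ χ', LL G χ χ' ∧ ∀ t ∈ L, ConstOn G χ' t := by
    intro L
    induction L with
    | nil => exact ⟨χ, ll_refl χ, fun t ht => absurd ht (by simp)⟩
    | cons t L ih =>
      obtain ⟨χ', h1, h2⟩ := ih
      obtain ⟨χ'', h3, h4⟩ := lim_col χ' t (h n k χ' t)
      refine ⟨χ'', ll_trans h1 h3, fun s hs => ?_⟩
      rcases List.mem_cons.1 hs with rfl | hs
      · exact h4
      · exact const_ll h3 (h2 s hs)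
  obtain ⟨χ', h1, h2⟩ := key F.toList
  obtain ⟨g, hg, h3⟩ := h1 F
  refine ⟨g, hg, fun x hx y hy hxy => ?_⟩
  obtain ⟨γ, hγ, hxy⟩ := hxy
  rw [← h3 x hx, ← h3 y hy]
  have h4 := h2 x (Finset.mem_toList.2 hx) 1 (one_mem G) γ hγ
  have e : (fun i => γ (x i)) = y := funext hxy
  rw [e] at h4
  exact h4

theorem tupleRamsey_autGroup {τ : Sig} {𝔹 : Str τ A} (hB : Homogeneous 𝔹) (hR : Ramsey 𝔹) :
    TupleRamsey (autGroup 𝔹) := by
  classical
  refine tupleRamsey_of_single fun n k χ t F => ?_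
  let X : Finset A := Finset.univ.image t
  let Y : Finset A := F.biUnion fun x => Finset.univ.image x
  let t' : Fin n → X := fun i => ⟨t i, Finset.mem_image_of_mem t (Finset.mem_univ i)⟩
  obtain ⟨e, he, hc⟩ := hR k X Y (fun f => χ fun i => f (t' i))
  obtain ⟨g, hg, hge⟩ := hB Y e he
  refine ⟨g, hg, ?_⟩
  have hY : ∀ x ∈ F, ∀ i, x i ∈ Y := fun x hx i =>
    Finset.mem_biUnion.2 ⟨x, hx, Finset.mem_image_of_mem x (Finset.mem_univ i)⟩
  have hemb : ∀ γ ∈ autGroup 𝔹, (fun i => γ (t i)) ∈ F →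
      ∃ f : X → Y, IsEmb (sub 𝔹 X) (sub 𝔹 Y) f ∧ ∀ i, (f (t' i) : A) = γ (t i) := by
    intro γ hγ hF
    have h1 : ∀ a : X, γ a ∈ Y := by
      rintro ⟨a, ha⟩
      obtain ⟨i, -, rfl⟩ := Finset.mem_image.1 ha
      exact hY _ hF i
    refine ⟨fun a => ⟨γ a, h1 a⟩, ⟨?_, ?_⟩, fun i => rfl⟩
    · intro a b hab
      exact Subtype.ext (γ.injective (congrArg Subtype.val hab))
    · intro l x
      exact hγ l _
  intro γ hγ γ' hγ' hF hF'
  obtain ⟨f, hf, hf'⟩ := hemb γ hγ hF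
  obtain ⟨f₁, hf₁, hf₁'⟩ := hemb γ' hγ' hF'
  have h1 := hc f f₁ hf hf₁
  have e1 : (fun i => g (γ (t i))) = fun i => e (f (t' i)) := funext fun i => by
    rw [← hf' i, hge]
  have e2 : (fun i => g (γ' (t i))) = fun i => e (f₁ (t' i)) := funext fun i => by
    rw [← hf₁' i, hge]
  rw [e1, e2]
  exact h1

end Pool.Agent.H50.PL
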