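import Pool.Agent.H50.PL.Equiv

/-!
# Reducts of homogeneous structures
-/

set_option autoImplicit false

namespace Pool.Agent.H50.PL

open Pool.Agent.H68.BP Pool.Agent.H58.SF Pool.Agent.H58.HN

variable {σ τ : Sig} {A : Type}

variable {𝔸 : Str σ A} {𝔹 : Str τ A}

theorem siggersEmb_iff (hB : Homogeneous 𝔹) :
    SiggersEmb 𝔸 𝔹 ↔ PseudoSiggersMod 𝔸 (autGroup 𝔹) := by
  constructor
  · rintro ⟨s, α, β, h1, h2, h3, h4⟩
    exact ⟨s, α, β, h1, locallyIn_of_emb hB h2, locallyIn_of_emb hB h3, h4⟩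
  · rintro ⟨s, α, β, h1, h2, h3, h4⟩
    exact ⟨s, α, β, h1, emb_of_locallyIn h2, emb_of_locallyIn h3, h4⟩

theorem canonicalSiggersEmb_iff (hB : Homogeneous 𝔹) :
    CanonicalSiggersEmb 𝔸 𝔹 ↔ CanonicalSiggersMod 𝔸 (autGroup 𝔹) := by
  constructor
  · rintro ⟨s, α, β, h1, hc, h2, h3, h4⟩
    exact ⟨s, α, β, h1, hc, locallyIn_of_emb hB h2, locallyIn_of_emb hB h3, h4⟩
  · rintro ⟨s, α, β, h1, hc, h2, h3, h4⟩
    exact ⟨s, α, β, h1, hc, emb_of_locallyIn h2, emb_of_locallyIn h3, h4⟩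

theorem olsakEmb_iff (hB : Homogeneous 𝔹) :
    OlsakEmb 𝔸 𝔹 ↔ PseudoOlsakMod 𝔸 (autGroup 𝔹) := by
  constructor
  · rintro ⟨o, α, β, γ, h1, h2, h3, h4, h5⟩
    exact ⟨o, α, β, γ, h1, locallyIn_of_emb hB h2, locallyIn_of_emb hB h3,
      locallyIn_of_emb hB h4, h5⟩
  · rintro ⟨o, α, β, γ, h1, h2, h3, h4, h5⟩
    exact ⟨o, α, β, γ, h1, emb_of_locallyIn h2, emb_of_locallyIn h3, emb_of_locallyIn h4, h5⟩

theorem loopEmb_iff (hB : Homogeneous 𝔹) {W : Type} (S : W → W → Prop) :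
    LoopEmb 𝔸 𝔹 S ↔ PseudoLoopMod 𝔸 (autGroup 𝔹) S := by
  constructor
  · rintro ⟨s, α, β, h1, h2, h3, h4⟩
    exact ⟨s, α, β, h1, locallyIn_of_emb hB h2, locallyIn_of_emb hB h3, h4⟩
  · rintro ⟨s, α, β, h1, h2, h3, h4⟩
    exact ⟨s, α, β, h1, emb_of_locallyIn h2, emb_of_locallyIn h3, h4⟩

theorem canonicalLoopEmb_iff (hB : Homogeneous 𝔹) {W : Type} (S : W → W → Prop) :
    CanonicalLoopEmb 𝔸 𝔹 S ↔ CanonicalLoopMod 𝔸 (autGroup 𝔹) S := by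
  constructor
  · rintro ⟨s, α, β, h1, hc, h2, h3, h4⟩
    exact ⟨s, α, β, h1, hc, locallyIn_of_emb hB h2, locallyIn_of_emb hB h3, h4⟩
  · rintro ⟨s, α, β, h1, hc, h2, h3, h4⟩
    exact ⟨s, α, β, h1, hc, emb_of_locallyIn h2, emb_of_locallyIn h3, h4⟩

theorem reduct_equivalences (hRC : T_RC) (hRD : T_RD) (hOS : T_OS) (hPO : T_PO)
    (hA : Countable A) (hB : Homogeneous 𝔹) (hR : Ramsey 𝔹) (hred : IsReduct 𝔸 𝔹) :
    List.TFAE [¬ PPConstructsK3 𝔸, ¬ NonbipartitePower 𝔸, OlsakEmb 𝔸 𝔹, SiggersEmb 𝔸 𝔹,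
      CanonicalSiggersEmb 𝔸 𝔹,
      ∃ (W : Type) (S : W → W → Prop), Colorable S 3 ∧ LoopEmb 𝔸 𝔹 S,
      ∀ (W : Type) [Finite W] (S : W → W → Prop), (∀ a b, S a b → S b a) →
        ¬ Colorable S 2 → CanonicalLoopEmb 𝔸 𝔹 S] := by
  have h := equivalences hRC hRD hOS hPO hA (𝔸 := 𝔸) (G := autGroup 𝔹)
    (fun g hg => Pool.Agent.H18.SF.isAut_reduct hred hg) (oligo_autGroup hB)
    (tupleRamsey_autGroup hB hR)
  simp only [olsakEmb_iff hB, siggersEmb_iff hB, canonicalSiggersEmb_iff hB, loopEmb_iff hB,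
    canonicalLoopEmb_iff hB]
  exact h

end Pool.Agent.H50.PL
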